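import Pool.Agent.KDS.StmtsA

set_option autoImplicit false

/-!
# KDS, row RDP: the duplication polynomials
-/

namespace Pool.Agent.KDS.H64

open Polynomial NumberField H58Q Pool.Agent.SZT Pool.Agent.KDT Pool.Agent.KDS

/-- A term: integer, exponents of `g₄, g₃, g₂, g₁`, exponents of `u₀, .., u₃`. -/
abbrev Tm : Type := ℤ × (ℕ × ℕ × ℕ × ℕ) × (ℕ × ℕ × ℕ × ℕ)

/-- The value of a term. -/
noncomputable def tv {E : Type} [Field E] (g : E[X]) (t : Tm) (u : Fin 4 → E) : E :=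
  ((t.1 : E) * (g.coeff 4 ^ t.2.1.1 * g.coeff 3 ^ t.2.1.2.1 * g.coeff 2 ^ t.2.1.2.2.1 *
    g.coeff 1 ^ t.2.1.2.2.2)) *
    (u 0 ^ t.2.2.1 * u 1 ^ t.2.2.2.1 * u 2 ^ t.2.2.2.2.1 * u 3 ^ t.2.2.2.2.2)

/-- First kind. -/
def okA (t : Tm) : Prop :=
  t.2.2.1 + t.2.2.2.1 + t.2.2.2.2.1 + t.2.2.2.2.2 = 4 ∧
    (t.2.2.1 + t.2.2.2.1 ≤ 2 ∨ (t.2.2.1 + t.2.2.2.1 ≤ 3 ∧ 1 ≤ t.2.1.2.2.2) ∨ 2 ≤ t.2.1.2.2.2)

/-- Second kind. -/
def okB (t : Tm) : Prop :=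
  t.2.2.1 + t.2.2.2.1 + t.2.2.2.2.1 + t.2.2.2.2.2 = 4 ∧
    (t.2.2.1 + t.2.2.2.1 = 0 ∨ (t.2.2.1 + t.2.2.2.1 ≤ 2 ∧ 1 ≤ t.2.1.2.2.2) ∨ 2 ≤ t.2.1.2.2.2)

instance : DecidablePred okA := fun _ => inferInstanceAs (Decidable (_ ∧ _))

instance : DecidablePred okB := fun _ => inferInstanceAs (Decidable (_ ∧ _))

/-- The terms of `dup0`. -/
def L0 : List Tm :=
  [(8, (0, 0, 0, 0), (0, 0, 3, 1)),
   (4, (1, 0, 0, 0), (0, 0, 4, 0)),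
   (-4, (0, 0, 0, 0), (0, 1, 1, 2)),
   (4, (0, 1, 0, 0), (0, 1, 3, 0)),
   (4, (0, 0, 0, 0), (1, 0, 0, 3)),
   (-4, (0, 1, 0, 0), (1, 0, 2, 1)),
   (4, (0, 0, 1, 0), (0, 2, 2, 0)),
   (-8, (0, 0, 1, 0), (1, 1, 1, 1)),
   (-8, (0, 0, 0, 1), (1, 1, 2, 0)),
   (4, (0, 0, 1, 0), (2, 0, 0, 2)),
   (-8, (0, 0, 0, 1), (2, 0, 1, 1)),
   (-8, (1, 0, 0, 1), (2, 0, 2, 0)),
   (4, (0, 0, 0, 1), (0, 3, 1, 0)),
   (-4, (0, 0, 0, 1), (1, 2, 0, 1)),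
   (-4, (0, 1, 0, 1), (2, 1, 1, 0)),
   (4, (0, 1, 0, 1), (3, 0, 0, 1)),
   (8, (0, 0, 0, 2), (3, 1, 0, 0)),
   (4, (1, 0, 0, 2), (4, 0, 0, 0))]

/-- The terms of `dup1`. -/
def L1 : List Tm :=
  [(4, (0, 0, 0, 0), (0, 0, 2, 2)),
   (-4, (0, 1, 0, 0), (0, 0, 4, 0)),
   (4, (0, 0, 0, 0), (0, 1, 0, 3)),
   (8, (1, 0, 0, 0), (0, 1, 1, 2)),
   (12, (0, 1, 0, 0), (0, 1, 2, 1)),
   (12, (0, 1, 0, 0), (1, 0, 1, 2)),
   (16, (0, 0, 1, 0), (1, 0, 2, 1)),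
   (8, (1, 1, 0, 0), (1, 0, 2, 1)),
   (16, (0, 0, 0, 1), (1, 0, 3, 0)),
   (4, (0, 2, 0, 0), (1, 0, 3, 0)),
   (8, (0, 0, 1, 0), (0, 2, 1, 1)),
   (4, (0, 0, 0, 1), (0, 2, 2, 0)),
   (8, (0, 0, 1, 0), (1, 1, 0, 2)),
   (16, (0, 0, 0, 1), (1, 1, 1, 1)),
   (16, (1, 0, 1, 0), (1, 1, 1, 1)),
   (8, (0, 1, 1, 0), (1, 1, 2, 0)),
   (16, (1, 0, 0, 1), (1, 1, 2, 0)),
   (4, (0, 0, 0, 1), (2, 0, 0, 2)),
   (8, (0, 1, 1, 0), (2, 0, 1, 1)),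
   (16, (1, 0, 0, 1), (2, 0, 1, 1)),
   (16, (0, 0, 2, 0), (2, 0, 2, 0)),
   (-24, (0, 1, 0, 1), (2, 0, 2, 0)),
   (16, (2, 0, 0, 1), (2, 0, 2, 0)),
   (4, (0, 0, 0, 1), (0, 3, 0, 1)),
   (8, (1, 0, 0, 1), (1, 2, 0, 1)),
   (12, (0, 1, 0, 1), (1, 2, 1, 0)),
   (12, (0, 1, 0, 1), (2, 1, 0, 1)),
   (16, (0, 0, 1, 1), (2, 1, 1, 0)),
   (8, (1, 1, 0, 1), (2, 1, 1, 0)),
   (16, (0, 0, 0, 2), (3, 0, 1, 0)),
   (4, (0, 2, 0, 1), (3, 0, 1, 0)),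
   (4, (0, 0, 0, 2), (2, 2, 0, 0)),
   (-4, (0, 1, 0, 2), (4, 0, 0, 0))]

/-- The terms of `dup2`. -/
def L2 : List Tm :=
  [(4, (0, 0, 0, 0), (0, 0, 1, 3)),
   (4, (1, 0, 0, 0), (0, 0, 2, 2)),
   (4, (0, 1, 0, 0), (0, 0, 3, 1)),
   (4, (0, 0, 1, 0), (0, 0, 4, 0)),
   (8, (0, 0, 0, 1), (0, 1, 3, 0)),
   (-8, (0, 0, 0, 1), (1, 0, 2, 1)),
   (-4, (0, 0, 0, 1), (0, 2, 1, 1)),
   (-4, (0, 0, 0, 1), (1, 1, 0, 2)),
   (-8, (1, 0, 0, 1), (1, 1, 1, 1)),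
   (-4, (0, 1, 0, 1), (1, 1, 2, 0)),
   (-4, (0, 1, 0, 1), (2, 0, 1, 1)),
   (-8, (0, 0, 1, 1), (2, 0, 2, 0)),
   (-8, (0, 0, 0, 2), (2, 1, 1, 0)),
   (8, (0, 0, 0, 2), (3, 0, 0, 1)),
   (4, (0, 0, 0, 2), (1, 3, 0, 0)),
   (4, (1, 0, 0, 2), (2, 2, 0, 0)),
   (4, (0, 1, 0, 2), (3, 1, 0, 0)),
   (4, (0, 0, 1, 2), (4, 0, 0, 0))]

/-- The terms of `dup3`. -/
def L3 : List Tm :=
  [(1, (0, 0, 0, 0), (0, 0, 0, 4)),
   (-2, (0, 1, 0, 0), (0, 0, 2, 2)),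
   (-8, (0, 0, 1, 0), (0, 0, 3, 1)),
   (-2, (0, 0, 0, 1), (0, 0, 4, 0)),
   (1, (0, 2, 0, 0), (0, 0, 4, 0)),
   (-4, (1, 0, 1, 0), (0, 0, 4, 0)),
   (-12, (0, 0, 0, 1), (0, 1, 2, 1)),
   (-8, (1, 0, 0, 1), (0, 1, 3, 0)),
   (-4, (0, 1, 0, 1), (1, 0, 3, 0)),
   (-2, (0, 1, 0, 1), (0, 2, 2, 0)),
   (4, (0, 1, 0, 1), (1, 1, 1, 1)),
   (-2, (0, 1, 0, 1), (2, 0, 0, 2)),
   (12, (0, 0, 0, 2), (2, 0, 2, 0)),
   (-12, (0, 0, 0, 2), (2, 1, 0, 1)),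
   (-8, (1, 0, 0, 2), (3, 0, 0, 1)),
   (-4, (0, 1, 0, 2), (3, 0, 1, 0)),
   (1, (0, 0, 0, 2), (0, 4, 0, 0)),
   (-2, (0, 1, 0, 2), (2, 2, 0, 0)),
   (-8, (0, 0, 1, 2), (3, 1, 0, 0)),
   (-2, (0, 0, 0, 3), (4, 0, 0, 0)),
   (1, (0, 2, 0, 2), (4, 0, 0, 0)),
   (-4, (1, 0, 1, 2), (4, 0, 0, 0))]

theorem hL0 : ∀ t ∈ L0, okA t := by decide +kernel

theorem hL1 : ∀ t ∈ L1, okA t := by decide +kernel

theorem hL2 : ∀ t ∈ L2, okB t := by decide +kernel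

theorem hL3 : ∀ t ∈ L3, okB t := by decide +kernel

variable {E : Type} [Field E]

theorem w_int (w : AbsoluteValue E ℝ) (na : IsNonarchimedean w) (n : ℤ) : w (n : E) ≤ 1 := by
  have hN : ∀ m : ℕ, w (m : E) ≤ 1 := by
    intro m
    induction m with
    | zero => simp
    | succ k ih =>
      rw [Nat.cast_succ]
      refine (na _ _).trans (max_le ih ?_)
      rw [map_one]
  rcases Int.eq_nat_or_neg n with ⟨m, rfl | rfl⟩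
  · rw [Int.cast_natCast]
    exact hN m
  · rw [Int.cast_neg, w.map_neg, Int.cast_natCast]
    exact hN m

/-- One term. -/
theorem term_RN (rna : RnaStatement) (w : AbsoluteValue E ℝ) (g : E[X]) (δ : ℝ)
    (Y : Set (Fin 4 → E)) (hN : NdC w g δ) (hY : ∀ u ∈ Y, quart g u = 0) (ν : ℝ → ℝ) (t : Tm)
    (h4 : t.2.2.1 + t.2.2.2.1 + t.2.2.2.2.1 + t.2.2.2.2.2 = 4)
    (hν : ∀ σ, 0 ≤ σ → σ ≤ 1 / 2 →
      ν σ ≤ (t.2.1.2.2.2 : ℝ) / 2 + ((4 : ℝ) - ((t.2.2.1 : ℝ) + (t.2.2.2.1 : ℝ))) * σ) :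
    RN w δ Y 4 ν (tv g t) := by
  obtain ⟨_, h2, _, hm, _, h6⟩ := rna E w g δ Y hN hY
  obtain ⟨n, ⟨a, b, c, k⟩, ⟨e0, e1, e2, e3⟩⟩ := t
  simp only at h4 hν
  have hw : w ((n : E) * (g.coeff 4 ^ a * g.coeff 3 ^ b * g.coeff 2 ^ c * g.coeff 1 ^ k)) ≤
      Real.exp (-δ * ((k : ℝ) / 2)) := by
    have hk : w (g.coeff 1) ^ k ≤ Real.exp (-δ * ((k : ℝ) / 2)) := by
      have h := pow_le_pow_left₀ (apply_nonneg w _) hN.c1 k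
      refine h.trans (le_of_eq ?_)
      rw [← Real.exp_nat_mul]
      congr 1
      ring
    have hp : ∀ (x : E) (m : ℕ), w x ≤ 1 → w x ^ m ≤ 1 := fun x m hx =>
      pow_le_one₀ (apply_nonneg w _) hx
    simp only [map_mul, map_pow]
    have e1' := w_int w hN.na n
    have e2' := hp _ a hN.c4
    have e3' := hp _ b hN.c3
    have e4' := hp _ c hN.c2
    have n0 : 0 ≤ w (n : E) := apply_nonneg w _
    have n4 : 0 ≤ w (g.coeff 4) ^ a := pow_nonneg (apply_nonneg w _) _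
    have n3 : 0 ≤ w (g.coeff 3) ^ b := pow_nonneg (apply_nonneg w _) _
    have n2 : 0 ≤ w (g.coeff 2) ^ c := pow_nonneg (apply_nonneg w _) _
    have n1 : 0 ≤ w (g.coeff 1) ^ k := pow_nonneg (apply_nonneg w _) _
    have q1 : w (g.coeff 4) ^ a * w (g.coeff 3) ^ b ≤ 1 := mul_le_one₀ e2' n3 e3'
    have q2 : w (g.coeff 4) ^ a * w (g.coeff 3) ^ b * w (g.coeff 2) ^ c ≤ 1 :=
      mul_le_one₀ q1 n2 e4'
    have q3 : w (g.coeff 4) ^ a * w (g.coeff 3) ^ b * w (g.coeff 2) ^ c * w (g.coeff 1) ^ k ≤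
        Real.exp (-δ * ((k : ℝ) / 2)) := by
      calc _ ≤ 1 * w (g.coeff 1) ^ k := mul_le_mul_of_nonneg_right q2 n1
        _ = w (g.coeff 1) ^ k := one_mul _
        _ ≤ _ := hk
    calc _ ≤ 1 * (w (g.coeff 4) ^ a * w (g.coeff 3) ^ b * w (g.coeff 2) ^ c *
          w (g.coeff 1) ^ k) := mul_le_mul_of_nonneg_right e1' (by positivity)
      _ = _ := one_mul _
      _ ≤ _ := q3
  have hmon := h6 4 ![e0, e1, e2, e3] (by simpa using h4)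
  have hmul := h2 4 _ (fun _ => (k : ℝ) / 2) _ _ (fun σ _ _ => hw) hmon
  have he : (fun u : Fin 4 → E => ((n : E) * (g.coeff 4 ^ a * g.coeff 3 ^ b * g.coeff 2 ^ c *
      g.coeff 1 ^ k)) * mon ![e0, e1, e2, e3] u) =
      tv g (n, (a, b, c, k), (e0, e1, e2, e3)) := by
    funext u
    simp [tv, mon, Fin.prod_univ_four]
  rw [← he]
  refine hm 4 _ ν _ (fun σ h0 h1 => ?_) hmul
  refine (hν σ h0 h1).trans (le_of_eq ?_)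
  simp [jj]

/-- A list of terms. -/
theorem list_RN (rna : RnaStatement) (w : AbsoluteValue E ℝ) (g : E[X]) (δ : ℝ)
    (Y : Set (Fin 4 → E)) (hN : NdC w g δ) (hY : ∀ u ∈ Y, quart g u = 0) (ν : ℝ → ℝ)
    (L : List Tm) (hL : ∀ t ∈ L, RN w δ Y 4 ν (tv g t)) :
    RN w δ Y 4 ν (fun u => (L.map (fun t => tv g t u)).sum) := by
  obtain ⟨h1, _, _, _, h5, _⟩ := rna E w g δ Y hN hY
  induction L with
  | nil => simpa using h5 4 ν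
  | cons t L ih =>
    have ha := hL t (by simp)
    have hb := ih (fun s hs => hL s (by simp [hs]))
    have hc := h1 4 ν _ _ ha hb
    simpa using hc

theorem ev0 (g : E[X]) (h0 : g.coeff 0 = 0) (u : Fin 4 → E) :
    dup0 g u = (L0.map (fun t => tv g t u)).sum := by
  simp only [L0, List.map_cons, List.map_nil, List.sum_cons, List.sum_nil, tv, dup0, h0]
  push_cast
  ring

theorem ev1 (g : E[X]) (h0 : g.coeff 0 = 0) (u : Fin 4 → E) :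
    dup1 g u = (L1.map (fun t => tv g t u)).sum := by
  simp only [L1, List.map_cons, List.map_nil, List.sum_cons, List.sum_nil, tv, dup1, h0]
  push_cast
  ring

theorem ev2 (g : E[X]) (h0 : g.coeff 0 = 0) (u : Fin 4 → E) :
    dup2 g u = (L2.map (fun t => tv g t u)).sum := by
  simp only [L2, List.map_cons, List.map_nil, List.sum_cons, List.sum_nil, tv, dup2, h0]
  push_cast
  ring

theorem ev3 (g : E[X]) (h0 : g.coeff 0 = 0) (u : Fin 4 → E) :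
    dup3 g u = (L3.map (fun t => tv g t u)).sum := by
  simp only [L3, List.map_cons, List.map_nil, List.sum_cons, List.sum_nil, tv, dup3, h0]
  push_cast
  ring

theorem okA_bd (t : Tm) (h : okA t) (σ : ℝ) (h0 : 0 ≤ σ) (h1 : σ ≤ 1 / 2) :
    2 * σ ≤ (t.2.1.2.2.2 : ℝ) / 2 + ((4 : ℝ) - ((t.2.2.1 : ℝ) + (t.2.2.2.1 : ℝ))) * σ := by
  obtain ⟨n, ⟨a, b, c, k⟩, ⟨e0, e1, e2, e3⟩⟩ := t
  obtain ⟨h4, h⟩ := h
  simp only at h4 h ⊢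
  have hJ4 : ((e0 : ℝ) + (e1 : ℝ)) ≤ 4 := by
    have : e0 + e1 ≤ 4 := by omega
    exact_mod_cast this
  have hk0 : (0 : ℝ) ≤ (k : ℝ) := Nat.cast_nonneg k
  rcases h with h | ⟨h, hk⟩ | hk
  · have hJ : ((e0 : ℝ) + (e1 : ℝ)) ≤ 2 := by exact_mod_cast h
    nlinarith
  · have hJ : ((e0 : ℝ) + (e1 : ℝ)) ≤ 3 := by exact_mod_cast h
    have hk' : (1 : ℝ) ≤ (k : ℝ) := by exact_mod_cast hk
    nlinarith
  · have hk' : (2 : ℝ) ≤ (k : ℝ) := by exact_mod_cast hk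
    nlinarith

theorem okB_bd (t : Tm) (h : okB t) (σ : ℝ) (h0 : 0 ≤ σ) :
    2 * σ + min (2 * σ) (1 - 2 * σ) ≤
      (t.2.1.2.2.2 : ℝ) / 2 + ((4 : ℝ) - ((t.2.2.1 : ℝ) + (t.2.2.2.1 : ℝ))) * σ := by
  obtain ⟨n, ⟨a, b, c, k⟩, ⟨e0, e1, e2, e3⟩⟩ := t
  obtain ⟨h4, h⟩ := h
  simp only at h4 h ⊢
  have hJ4 : ((e0 : ℝ) + (e1 : ℝ)) ≤ 4 := by
    have : e0 + e1 ≤ 4 := by omega
    exact_mod_cast this
  have hk0 : (0 : ℝ) ≤ (k : ℝ) := Nat.cast_nonneg k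
  have hm1 : min (2 * σ) (1 - 2 * σ) ≤ 2 * σ := min_le_left _ _
  have hm2 : min (2 * σ) (1 - 2 * σ) ≤ 1 - 2 * σ := min_le_right _ _
  rcases h with h | ⟨h, hk⟩ | hk
  · have hJ : ((e0 : ℝ) + (e1 : ℝ)) = 0 := by exact_mod_cast h
    rw [hJ]
    linarith
  · have hJ : ((e0 : ℝ) + (e1 : ℝ)) ≤ 2 := by exact_mod_cast h
    have hk' : (1 : ℝ) ≤ (k : ℝ) := by exact_mod_cast hk
    nlinarith
  · have hk' : (2 : ℝ) ≤ (k : ℝ) := by exact_mod_cast hk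
    nlinarith

theorem rdp (rna : RnaStatement) : RdpStatement := by
  intro E _ w g δ Y hN hY l
  have hA : ∀ L : List Tm, (∀ t ∈ L, okA t) →
      RN w δ Y 4 (fun σ => 2 * σ + 0) (fun u => (L.map (fun t => tv g t u)).sum) := by
    intro L hL
    refine list_RN rna w g δ Y hN hY _ L (fun t ht => ?_)
    refine term_RN rna w g δ Y hN hY _ t (hL t ht).1 (fun σ h0 h1 => ?_)
    rw [add_zero]
    exact okA_bd t (hL t ht) σ h0 h1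
  have hB : ∀ L : List Tm, (∀ t ∈ L, okB t) →
      RN w δ Y 4 (fun σ => 2 * σ + min (2 * σ) (1 - 2 * σ))
        (fun u => (L.map (fun t => tv g t u)).sum) := by
    intro L hL
    refine list_RN rna w g δ Y hN hY _ L (fun t ht => ?_)
    exact term_RN rna w g δ Y hN hY _ t (hL t ht).1 (fun σ h0 _ => okB_bd t (hL t ht) σ h0)
  fin_cases l
  · have e : (fun u : Fin 4 → E => dup g u 0) = fun u => (L0.map (fun t => tv g t u)).sum :=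
      funext fun u => ev0 g hN.c0 u
    have h := hA L0 hL0
    rw [← e] at h
    simpa using h
  · have e : (fun u : Fin 4 → E => dup g u 1) = fun u => (L1.map (fun t => tv g t u)).sum :=
      funext fun u => ev1 g hN.c0 u
    have h := hA L1 hL1
    rw [← e] at h
    simpa using h
  · have e : (fun u : Fin 4 → E => dup g u 2) = fun u => (L2.map (fun t => tv g t u)).sum :=
      funext fun u => ev2 g hN.c0 u
    have h := hB L2 hL2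
    rw [← e] at h
    simpa using h
  · have e : (fun u : Fin 4 → E => dup g u 3) = fun u => (L3.map (fun t => tv g t u)).sum :=
      funext fun u => ev3 g hN.c0 u
    have h := hB L3 hL3
    rw [← e] at h
    simpa using h

end Pool.Agent.KDS.H64
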